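import Pool.Agent.Lib.MP_a20de0_al.CDN.GlFour

set_option autoImplicit false

/-! The Cartan determinant of an elementary algebra of finite global dimension for which all but one (or: all but a set
with positive Cartan minor) of the simple modules `S_i` satisfy `Ext^t(S_i,S_j) = 0` for `t ≥ 1` and `i < j`, and
`Ext^t(S_i,S_i) = 0` for `t ≥ 3`, or the global dimension is at most 4 and `S_i` occurs in the left and the right socle. -/

namespace Pool.Agent.Results.MP_a20de0_al.ExtTriangular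

open CategoryTheory in
theorem result (k : Type) [Field k] (A : Type) [Ring A] [Algebra k A] [Module.Finite k A]
    (hgl : ∃ m : ℕ, ∀ M : ModuleCat.{0} A, HasProjectiveDimensionLT M m)
    (n : ℕ) (e : Fin n → A) (hidem : ∀ i, IsIdempotentElem (e i)) (hne : ∀ i, e i ≠ 0)
    (horth : ∀ i j, i ≠ j → e i * e j = 0) (hsum : ∑ i, e i = 1)
    (helem : ∀ a : A, ∃ c : Fin n → k, a - ∑ i, c i • e i ∈ (⊥ : Ideal A).jacobson)
    (C : Matrix (Fin n) (Fin n) ℤ)
    (hC : ∀ i j, C i j = Module.finrank k (LinearMap.range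
      ((LinearMap.mulLeft k (e i)).comp (LinearMap.mulRight k (e j)))))
    (V : Finset (Fin n))
    (hself : ∀ i ∈ V,
      (∀ S : ModuleCat.{0} A, IsSimpleModule A S → (∃ y : S, e i • y ≠ 0) → ∀ t, 3 ≤ t → ∀ x : Abelian.Ext S S t, x = 0) ∨
      ((∀ M : ModuleCat.{0} A, HasProjectiveDimensionLT M 5) ∧ ∃ z w : A, z ≠ 0 ∧ w ≠ 0 ∧ z * e i = z ∧ e i * w = w ∧
        (∀ x ∈ (⊥ : Ideal A).jacobson, z * x = 0) ∧ ∀ x ∈ (⊥ : Ideal A).jacobson, x * w = 0))
    (hpair : ∀ i ∈ V, ∀ j ∈ V, i < j → ∀ M S : ModuleCat.{0} A, IsSimpleModule A M → IsSimpleModule A S →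
      (∃ y : M, e i • y ≠ 0) → (∃ y : S, e j • y ≠ 0) → ∀ t, 1 ≤ t → ∀ x : Abelian.Ext M S t, x = 0)
    (hpos : (∀ a b, a ∉ V → b ∉ V → a = b) ∨
      0 < (C.submatrix (Subtype.val : {j : Fin n // j ∉ V} → Fin n) Subtype.val).det) :
    C.det = 1 := by
  have h : CDN.Elem k e := ⟨hidem, hne, horth, hsum, helem⟩
  have hC' : C = Matrix.of fun i j : Fin n => (CDC.la k (e i) (e j) : ℤ) := by
    ext i j
    rw [hC, Matrix.of_apply]
    unfold CDC.la
    rw [Module.length_eq_finrank]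
    simp only [ENat.toNat_coe]
  rw [hC'] at hpos ⊢
  exact CDN.cartan_ext k A n e h hgl V hself hpair hpos

end Pool.Agent.Results.MP_a20de0_al.ExtTriangular
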