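import Pool.Agent.Lib.MP_a20de0_al.CDR.Final

set_option autoImplicit false

/-! The Cartan determinant of an elementary algebra of global dimension at most 3 in which all but two simple modules can
be removed one after the other, each having projective dimension at most 1 when it is removed. -/

namespace Pool.Agent.Results.MP_a20de0_al.GlThree

theorem result (k : Type) [Field k] (A : Type) [Ring A] [Algebra k A] [Module.Finite k A]
    (h3 : ∀ M : ModuleCat.{0} A, CategoryTheory.HasProjectiveDimensionLT M 4)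
    (n : ℕ) (e : Fin (n + 2) → A) (hidem : ∀ i, IsIdempotentElem (e i)) (hne : ∀ i, e i ≠ 0)
    (horth : ∀ i j, i ≠ j → e i * e j = 0) (hsum : ∑ i, e i = 1)
    (helem : ∀ a : A, ∃ c : Fin (n + 2) → k, a - ∑ i, c i • e i ∈ (⊥ : Ideal A).jacobson)
    (hflag : ∀ i : Fin (n + 2), 2 ≤ i.val → ∀ hf : IsIdempotentElem (∑ j ∈ Finset.Iic i, e j),
      ∀ N : ModuleCat.{0} hf.Corner, IsSimpleModule hf.Corner N →
        (∃ (x : hf.Corner) (y : N), x.1 = e i ∧ x • y ≠ 0) → CategoryTheory.HasProjectiveDimensionLT N 2)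
    (C : Matrix (Fin (n + 2)) (Fin (n + 2)) ℤ)
    (hC : ∀ i j, C i j = Module.finrank k (LinearMap.range
      ((LinearMap.mulLeft k (e i)).comp (LinearMap.mulRight k (e j))))) :
    C.det = 1 := by
  have h : CDN.Elem k e := ⟨hidem, hne, horth, hsum, helem⟩
  have hC' : C = Matrix.of fun i j : Fin (n + 2) => (CDC.la k (e i) (e j) : ℤ) := by
    ext i j
    rw [hC, Matrix.of_apply]
    unfold CDC.la
    rw [Module.length_eq_finrank]
    simp only [ENat.toNat_coe]
  rw [hC']
  exact CDR.cartan_gl3 k A n e h h3 hflag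

end Pool.Agent.Results.MP_a20de0_al.GlThree
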