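import Pool.Agent.Lib.MP_a20de0_al.CDC.Final

set_option autoImplicit false

/-! The Cartan determinant does not change when a step of a flag of corner rings of finite global dimension adds one
orbit (under ring automorphisms of the corner) of primitive idempotents. -/

namespace Pool.Agent.Results.MP_a20de0_al.OrbitFlag

theorem result (R : Type) [CommRing R] [IsArtinianRing R] (A : Type) [Ring A] [Algebra R A]
    [Module.Finite R A] (n : ℕ) (e : Fin n → A) (blk : Fin n → ℕ)
    (hprim : ∀ i, IsIdempotentElem (e i) ∧ e i ≠ 0 ∧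
        ∀ g : A, IsIdempotentElem g → e i * g = g → g * e i = g → g = 0 ∨ g = e i)
    (horth : ∀ i j, i ≠ j → e i * e j = 0)
    (hniso : ∀ i j, i ≠ j → ¬ ∃ a b : A,
        e i * a * e j = a ∧ e j * b * e i = b ∧ a * b = e i ∧ b * a = e j)
    (hgl : ∀ i, ∀ hf : IsIdempotentElem (∑ j ∈ Finset.univ.filter (fun j => blk j ≤ i), e j),
      ∃ m : ℕ, ∀ M : ModuleCat.{0} hf.Corner, CategoryTheory.HasProjectiveDimensionLT M m)
    (haut : ∀ i, 1 ≤ i → ∀ hf : IsIdempotentElem (∑ j ∈ Finset.univ.filter (fun j => blk j ≤ i), e j),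
      ∀ a b, blk a = i → blk b = i → ∃ φ : hf.Corner ≃+* hf.Corner,
        (∀ x : hf.Corner, x.1 = e a → (φ x).1 = e b) ∧
        ∀ c, blk c = i → ∃ d, blk d = i ∧ ∀ x : hf.Corner, x.1 = e c → (φ x).1 = e d)
    (C : Matrix (Fin n) (Fin n) ℚ)
    (hC : ∀ i j, C i j = ((Module.length R (LinearMap.range
            ((LinearMap.mulLeft R (e i)).comp (LinearMap.mulRight R (e j))))).toNat : ℚ) /
        (((Module.length R (LinearMap.range
            ((LinearMap.mulLeft R (e i)).comp (LinearMap.mulRight R (e i))))).toNat : ℚ) -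
         ((Module.length R (Submodule.map
            ((LinearMap.mulLeft R (e i)).comp (LinearMap.mulRight R (e i)))
            ((⊥ : Ideal A).jacobson.restrictScalars R))).toNat : ℚ))) :
    C.det = (C.submatrix (Subtype.val : {j : Fin n // blk j = 0} → Fin n) Subtype.val).det ∧
      ((∀ i, blk i ≠ 0) → C.det = 1) := by
  have h := Pool.Agent.CDC.cartan_flag R A n e blk hprim horth hniso hgl haut C hC
  refine ⟨h, fun h0 => ?_⟩
  have : IsEmpty {j : Fin n // blk j = 0} := ⟨fun j => h0 j.1 j.2⟩
  rw [h, Matrix.det_isEmpty]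

end Pool.Agent.Results.MP_a20de0_al.OrbitFlag
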